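import Pool.Agent.H95.AT.Cov

/-!
MP_20b81e_nt, Q1 (the inverse sieve conjecture): covering theorem for sets of integers which miss, modulo sparse moduli `m`
of one scale, the preimage of an interval of residue classes under a polynomial.
-/

set_option autoImplicit false

namespace Pool.Agent.Results.MP_20b81e_nt.MissedPreimages

/-- There are `f = g / A` with `g ∈ F`, `1 ≤ A ≤ L`, `A` prime to `m`, and an interval `I = {u, u + 1, ..., u + w - 1}` of
`w ≥ m / L` consecutive classes modulo `m`, such that `f(x) mod m` is in `I` for no `x ∈ X` (`f(x) ≡ u + i` modulo `m` means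
`g(x) ≡ A (u + i)` modulo `m`). -/
def Misses (F : Finset (Polynomial ℤ)) (L m : ℕ) (X : Finset ℕ) : Prop :=
  ∃ g ∈ F, ∃ (A w : ℕ) (u : ℤ), 1 ≤ A ∧ A ≤ L ∧ A.Coprime m ∧ m ≤ L * w ∧
    ∀ x ∈ X, ∀ i : ℕ, i < w → ¬ g.eval (x : ℤ) ≡ A * (u + i) [ZMOD m]

/-- Let `F` be a set of at most `(3 L) ^ (k + 1)` polynomials of `ℤ[x]` of degree between `1` and `k` with coefficients in
`[-Q ^ K, Q ^ K]`. If for each element `m` of a set `M` of at least `Q / L` integers of `(Q, 2 Q]` the set `X ⊆ [0, Q ^ K]`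
misses the preimage of an interval of at least `m / L` classes under some `g / A`, `g ∈ F`, `A ≤ L`, then some `g ∈ F` maps
the whole of `X` into a union of at most `C L ^ e` intervals `[u, u + Q)` of length `Q`. -/
theorem result (k K : ℕ) : ∃ C e : ℕ, ∀ L Q : ℕ, 1 ≤ L → 1 ≤ Q →
    ∀ F : Finset (Polynomial ℤ), F.card ≤ (3 * L) ^ (k + 1) →
    (∀ g ∈ F, 1 ≤ g.natDegree ∧ g.natDegree ≤ k ∧ ∀ i, |g.coeff i| ≤ (Q : ℤ) ^ K) →
    ∀ M X : Finset ℕ, (∀ m ∈ M, Q < m ∧ m ≤ 2 * Q) → (∀ x ∈ X, x ≤ Q ^ K) → Q ≤ L * M.card →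
    (∀ m ∈ M, Misses F L m X) →
    ∃ g ∈ F, ∃ U : Finset ℤ, U.card ≤ C * L ^ e ∧ ∀ x ∈ X, ∃ u ∈ U, u ≤ g.eval (x : ℤ) ∧ g.eval (x : ℤ) < u + Q :=
  H95.AT.cov k K

end Pool.Agent.Results.MP_20b81e_nt.MissedPreimages
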