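import Pool.Agent.H95.AT.Fin8

/-!
MP_20b81e_nt, Q1 (the inverse sieve conjecture): inverse theorem for sets of integers some polynomial image of which is
uneven on an interval modulo sparse moduli of one scale.
-/

set_option autoImplicit false

open scoped Classical

noncomputable section

namespace Pool.Agent.Results.MP_20b81e_nt.PolynomialImages

/-- There are `f = g / A` with `g ∈ F`, `1 ≤ A ≤ L`, `A` prime to `m`, and an interval `I = {u, u + 1, ..., u + w - 1}` of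
`w ≤ m` classes modulo `m`, such that the number of `x ∈ X` with `f(x) mod m` in `I` (that is, `g(x) ≡ A (u + i)` modulo `m`
for some `i < w`) differs from `(w / m) |X|` by at least `|X| / L`. -/
def Uneven (F : Finset (Polynomial ℤ)) (L m : ℕ) (X : Finset ℕ) : Prop :=
  ∃ g ∈ F, ∃ (A w : ℕ) (u : ℤ), 1 ≤ A ∧ A ≤ L ∧ A.Coprime m ∧ w ≤ m ∧
    (X.card : ℝ) ≤ L * |((X.filter fun x : ℕ => ∃ i : ℕ, i < w ∧ g.eval (x : ℤ) ≡ A * (u + i) [ZMOD m]).card : ℝ) -
      (w : ℝ) / m * X.card|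

/-- There are `f = g / A` with `g ∈ F` and `1 ≤ A ≤ L` and an integer `h` with `A h ≡ 1` modulo `m` (so that `f(x) mod m` is
`h g(x)`), such that the sum of `exp (2 π i h g(x) / m)` over `x ∈ X` is at least `|X| / L` in absolute value. -/
def LargeSum (F : Finset (Polynomial ℤ)) (L m : ℕ) (X : Finset ℕ) : Prop :=
  ∃ g ∈ F, ∃ (A : ℕ) (h : ℤ), 1 ≤ A ∧ A ≤ L ∧ (A : ℤ) * h ≡ 1 [ZMOD m] ∧
    (X.card : ℝ) ≤ L * ‖∑ x ∈ X, Complex.exp (2 * Real.pi * Complex.I * (h * g.eval (x : ℤ) / m))‖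

/-- Let `F` be a set of at most `(3 L) ^ (k + 1)` polynomials of `ℤ[x]` of degree between `1` and `k` with coefficients in
`[-Q ^ K, Q ^ K]` (for instance the set of all with coefficients in `[-L, L]`, if `L ≤ Q ^ K`). If `X ⊆ [0, Q ^ K]` is
uneven or has a large sum modulo each element `m` of a set `M` of at least `Q / L` integers of `(Q, 2 Q]`, then
`|X| ≤ C L ^ e Q`, and for some `f = g / A` with `g ∈ F` and `1 ≤ A ≤ L` and some interval `[u / A, u / A + Q)` of length `Q`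
at least `|X| / (C L ^ e)` elements `x` of `X` have `f(x)` in the interval. -/
theorem result (k K : ℕ) : ∃ C e : ℕ, ∀ L Q : ℕ, 1 ≤ L → 1 ≤ Q →
    ∀ F : Finset (Polynomial ℤ), F.card ≤ (3 * L) ^ (k + 1) →
    (∀ g ∈ F, 1 ≤ g.natDegree ∧ g.natDegree ≤ k ∧ ∀ i, |g.coeff i| ≤ (Q : ℤ) ^ K) →
    ∀ M X : Finset ℕ, (∀ m ∈ M, Q < m ∧ m ≤ 2 * Q) → (∀ x ∈ X, x ≤ Q ^ K) → Q ≤ L * M.card →
    (∀ m ∈ M, Uneven F L m X ∨ LargeSum F L m X) →
    X.card ≤ C * L ^ e * Q ∧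
    ∃ g ∈ F, ∃ (A : ℕ) (u : ℤ), 1 ≤ A ∧ A ≤ L ∧
      X.card ≤ C * L ^ e * (X.filter fun x : ℕ => u ≤ g.eval (x : ℤ) ∧ g.eval (x : ℤ) < u + A * Q).card :=
  H95.AT.fin8 k K

end Pool.Agent.Results.MP_20b81e_nt.PolynomialImages
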