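import Pool.Agent.H95.IS.Final

/-!
MP_20b81e_nt, Q1 (the inverse sieve conjecture) for local obstructions of power residue type: structure theorem.
-/

set_option autoImplicit false

open scoped Classical

noncomputable section

namespace Pool.Agent.Results.MP_20b81e_nt.PowerCellsCover

/-- `f` is of height at most `B`: `f = g / A` with a positive integer `A ≤ B` and `g ∈ ℤ[x]` with
all coefficients in `[-B, B]`. -/
def Height (B : ℝ) (f : Polynomial ℚ) : Prop :=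
  ∃ A : ℕ, 0 < A ∧ (A : ℝ) ≤ B ∧ ∃ g : Polynomial ℤ,
    (∀ i : ℕ, ((|g.coeff i| : ℤ) : ℝ) ≤ B) ∧
    f = Polynomial.C ((A : ℚ)⁻¹) * g.map (Int.castRingHom ℚ)

/-- The cell modulo `p` with exponent `l`, set of centres `S ⊂ ℚ` and residues `θ c` (`c ∈ S`): for
every centre `c = num / den ∈ S`, `den · n - num` is `θ c` times a nonzero `l`-th power modulo `p`
(so `n - c` lies in a prescribed coset of the nonzero `l`-th powers). -/
def InCell (l p : ℕ) (S : Finset ℚ) (θ : ℚ → ZMod p) (n : ℕ) : Prop :=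
  ∀ c ∈ S, ∃ u : ZMod p, u ≠ 0 ∧
    (c.den : ZMod p) * (n : ZMod p) - (c.num : ZMod p) = θ c * u ^ l

/-- Admissible data at the prime `p`: a prime exponent `l ≤ D` with `l ∣ p - 1`, and between `1` and
`k` centres of height at most `N ^ δ` (both `p`-dependent). -/
def Adm (δ : ℝ) (k D N p l : ℕ) (S : Finset ℚ) : Prop :=
  l.Prime ∧ l ≤ D ∧ l ∣ p - 1 ∧ S.Nonempty ∧ S.card ≤ k ∧
    ∀ c ∈ S, |(c.num : ℝ)| ≤ (N : ℝ) ^ δ ∧ (c.den : ℝ) ≤ (N : ℝ) ^ δ

/-- `X` misses some admissible cell at `p` completely. -/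
def Missed (δ : ℝ) (k D N : ℕ) (X : Finset ℕ) (p : ℕ) : Prop :=
  ∃ (l : ℕ) (S : Finset ℚ) (θ : ℚ → ZMod p), Adm δ k D N p l S ∧ (∀ c ∈ S, θ c ≠ 0) ∧
    ∀ n ∈ X, ¬ InCell l p S θ n

/-- `X mod p` is contained in the union, over at most `k` centres `c = num / den ∈ S`, of the sets
`{n : den · n - num = a c · u ^ l, u ∈ 𝔽_p}`, i.e. of the images of the polynomials
`(a c / den) x ^ l + c` modulo `p`, with arbitrary residues `a c` modulo `p`. -/
def Covered (δ : ℝ) (k D N : ℕ) (X : Finset ℕ) (p : ℕ) : Prop :=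
  ∃ (l : ℕ) (S : Finset ℚ) (a : ℚ → ZMod p), Adm δ k D N p l S ∧
    ∀ n ∈ X, ∃ c ∈ S, ∃ u : ZMod p,
      (c.den : ZMod p) * (n : ZMod p) - (c.num : ZMod p) = a c * u ^ l

/-- The set of primes with the property `G` has relative density at least `ε` at every scale
`Q ∈ [N ^ ε, N]`, or the sum of `1 / p` over the primes `p ∈ (N ^ ε, N]` with the property `G` is at
least `ε`. -/
def Dense (ε : ℝ) (N : ℕ) (G : ℕ → Prop) : Prop :=
  (∀ Q : ℝ, (N : ℝ) ^ ε ≤ Q → Q ≤ N → ε * (Nat.primeCounting ⌊Q⌋₊ : ℝ) ≤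
    (((Finset.Icc 1 ⌊Q⌋₊).filter fun p : ℕ => p.Prime ∧ G p).card : ℝ)) ∨
  ε ≤ ∑ p ∈ (Finset.Icc 1 N).filter (fun p : ℕ => p.Prime ∧ (N : ℝ) ^ ε < p ∧ G p), (1 : ℝ) / p

/-- If for a positive proportion of the primes the set `X` misses an admissible cell (or is covered
by the images of at most `k` pure power polynomials with centres of small height), then at most `C`
polynomials of one common prime degree `≤ D` and of height at most `N ^ C` cover `X` up to at most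
`C N ^ ε` elements. -/
theorem result (ε : ℝ) (hε : 0 < ε) (k D : ℕ) :
    ∃ δ C : ℝ, 0 < δ ∧ 0 < C ∧
      ∀ (N : ℕ) (X : Finset ℕ), X ⊆ Finset.Icc 1 N →
        Dense ε N (fun p => Missed δ k D N X p ∨ Covered δ k D N X p) →
        ∃ F : Finset (Polynomial ℚ), (F.card : ℝ) ≤ C ∧
          (∀ f ∈ F, f.natDegree.Prime ∧ f.natDegree ≤ D ∧ Height ((N : ℝ) ^ C) f) ∧
          (∀ f ∈ F, ∀ g ∈ F, f.natDegree = g.natDegree) ∧
          ((X.filter fun n : ℕ => ∀ f ∈ F, ∀ y ∈ Finset.Icc 1 N,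
            f.eval ((y : ℕ) : ℚ) ≠ (n : ℚ)).card : ℝ) ≤ C * (N : ℝ) ^ ε :=
  H95.IS.finalB ε hε k D

end Pool.Agent.Results.MP_20b81e_nt.PowerCellsCover
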